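import Mathlib.Algebra.Category.Grp.Basic
import Mathlib.Algebra.Category.Grp.EpiMono
import Mathlib.Analysis.SpecialFunctions.Complex.Log
import Mathlib.Tactic
import Mathlib.Algebra.Group.MinimalAxioms

/-!
# MP_a437dc_al, Q1: rationalization of groups is not conditionally flat

The group `E = ℝ ⋊ ℚ`, in which `r ∈ ℚ` acts on `ℝ` as multiplication by `2 ^ r`, is uniquely
divisible, as are `ℝ` and `ℚ`, so the extension `ℝ → E → ℚ` is `L`-flat. Its pullback along
`ℤ → ℚ` is `ℝ → ℝ ⋊ ℤ → ℤ`. If this were `L`-flat, the image of `ℝ` would be a normal subgroup of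
`L(ℝ ⋊ ℤ)`, and conjugation by the square root of (the image of) the generator `1 ∈ ℤ` would map
`1 ∈ ℝ` to some `y ∈ ℝ`. Mapping to `ℝ ⋊ ℚ` we find `y = √2`. But `ℝ ⋊ ℤ` also embeds into the
uniquely divisible group `ℂ ⋊ ℚ` in which `r` acts as multiplication by
`2 ^ r exp (2 π i r)`; here the square root of `1 ∈ ℤ` acts as multiplication by `-√2`, so
`y = -√2`, a contradiction.
-/

set_option autoImplicit false

open CategoryTheory

namespace Pool.Agent.Results.MP_a437dc_al.NotConditionallyFlat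

universe u

/-- The local groups: `x ↦ x ^ p` is a bijection for every prime `p`. -/
def IsLocal (T : Type u) [Group T] : Prop :=
  ∀ p : ℕ, p.Prime → Function.Bijective (fun x : T => x ^ p)

/-- A rationalization functor: a functor `L` with a natural transformation `η : Id → L` such that,
for every group `G`, `η_G : G → L G` is universal among homomorphisms from `G` to local groups. -/
structure Rationalization where
  /-- the functor -/
  L : GrpCat.{u} ⥤ GrpCat.{u}
  /-- the coaugmentation -/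
  η : 𝟭 GrpCat.{u} ⟶ L
  isLocal : ∀ G : GrpCat.{u}, IsLocal (L.obj G)
  universal : ∀ (G T : GrpCat.{u}), IsLocal T → ∀ f : G ⟶ T,
    ∃! g : L.obj G ⟶ T, η.app G ≫ g = f

/-- `1 → N → E → G → 1` is a short exact sequence of groups. -/
def IsExtension {N E G : GrpCat.{u}} (i : N ⟶ E) (p : E ⟶ G) : Prop :=
  Function.Injective i.hom ∧ Function.Surjective p.hom ∧ i.hom.range = p.hom.ker

/-- An extension is `L`-flat if `L` maps it to a short exact sequence. -/
def IsFlatExtension (F : Rationalization.{u}) {N E G : GrpCat.{u}} (i : N ⟶ E) (p : E ⟶ G) :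
    Prop :=
  IsExtension i p ∧ IsExtension (F.L.map i) (F.L.map p)

/-- The pullback `E ×_G H` of `p : E → G` and `α : H → G`, as a subgroup of `E × H`. -/
def pullback {E G H : GrpCat.{u}} (p : E ⟶ G) (α : H ⟶ G) : Subgroup (E × H) where
  carrier := {x | p.hom x.1 = α.hom x.2}
  mul_mem' := by
    intro a b ha hb
    simp only [Set.mem_ofPred_eq, Prod.fst_mul, Prod.snd_mul, map_mul] at *
    rw [ha, hb]
  one_mem' := by simp
  inv_mem' := by
    intro a ha
    simp only [Set.mem_ofPred_eq, Prod.fst_inv, Prod.snd_inv, map_inv] at *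
    rw [ha]

/-- The projection `E ×_G H → H`. -/
def pullbackProj {E G H : GrpCat.{u}} (p : E ⟶ G) (α : H ⟶ G) :
    GrpCat.of (pullback p α) ⟶ H :=
  GrpCat.ofHom ((MonoidHom.snd E H).comp (pullback p α).subtype)

/-- The inclusion `N → E ×_G H`, `n ↦ (i n, 1)`. -/
def pullbackIncl {N E G H : GrpCat.{u}} (i : N ⟶ E) (p : E ⟶ G) (α : H ⟶ G)
    (h : ∀ n : N, p.hom (i.hom n) = 1) : N ⟶ GrpCat.of (pullback p α) :=
  GrpCat.ofHom (((MonoidHom.inl E H).comp i.hom).codRestrict (pullback p α) (by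
    intro n
    show p.hom (i.hom n) = α.hom 1
    rw [h n, map_one]))

/-- In an extension the composite is trivial. -/
theorem IsExtension.comp_eq_one {N E G : GrpCat.{u}} {i : N ⟶ E} {p : E ⟶ G}
    (h : IsExtension i p) (n : N) : p.hom (i.hom n) = 1 := by
  have h1 : i.hom n ∈ i.hom.range := ⟨n, rfl⟩
  rw [h.2.2] at h1
  exact h1

/-- `L` is conditionally flat: for every `L`-flat extension `1 → N → E → G → 1` and every
homomorphism `H → G` the extension `1 → N → E ×_G H → H → 1` is `L`-flat. -/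
def ConditionallyFlat (F : Rationalization.{u}) : Prop :=
  ∀ (N E G : GrpCat.{u}) (i : N ⟶ E) (p : E ⟶ G) (h : IsFlatExtension F i p)
    (H : GrpCat.{u}) (α : H ⟶ G),
    IsFlatExtension F (pullbackIncl i p α h.1.comp_eq_one) (pullbackProj p α)

/-! ### Existence of the rationalization -/

section Existence

/-- Terms in the language of groups with root operations and constants from `G`. -/
inductive Term (G : Type u) : Type u
  | of : G → Term G
  | one : Term G
  | mul : Term G → Term G → Term G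
  | inv : Term G → Term G
  | root : ℕ → Term G → Term G

/-- powers of a term -/
def Term.pow {G : Type u} (x : Term G) : ℕ → Term G
  | 0 => Term.one
  | n + 1 => Term.mul (Term.pow x n) x

/-- The congruence defining the rationalization. -/
inductive Rel {G : Type u} [Group G] : Term G → Term G → Prop
  | refl (x) : Rel x x
  | symm {x y} : Rel x y → Rel y x
  | trans {x y z} : Rel x y → Rel y z → Rel x z
  | mul {x x' y y'} : Rel x x' → Rel y y' → Rel (x.mul y) (x'.mul y')
  | inv {x x'} : Rel x x' → Rel x.inv x'.inv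
  | root {x x'} (p : ℕ) : Rel x x' → Rel (x.root p) (x'.root p)
  | assoc (x y z : Term G) : Rel ((x.mul y).mul z) (x.mul (y.mul z))
  | one_mul (x : Term G) : Rel (Term.one.mul x) x
  | inv_mul (x : Term G) : Rel (x.inv.mul x) Term.one
  | of_mul (g h : G) : Rel (Term.of (g * h)) ((Term.of g).mul (Term.of h))
  | root_pow (p : ℕ) (hp : p.Prime) (x : Term G) : Rel ((x.root p).pow p) x
  | pow_root (p : ℕ) (hp : p.Prime) (x : Term G) : Rel ((x.pow p).root p) x
  | root_junk (p : ℕ) (hp : ¬ p.Prime) (x : Term G) : Rel (x.root p) Term.one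

/-- the setoid of the congruence -/
def termSetoid (G : Type u) [Group G] : Setoid (Term G) :=
  ⟨Rel, ⟨Rel.refl, Rel.symm, Rel.trans⟩⟩

/-- The rationalization of `G`. -/
def RatG (G : Type u) [Group G] : Type u := Quotient (termSetoid G)

/-- the class of a term -/
def RatG.mk {G : Type u} [Group G] (x : Term G) : RatG G := Quotient.mk (termSetoid G) x

theorem RatG.ind {G : Type u} [Group G] {P : RatG G → Prop} (h : ∀ x, P (RatG.mk x)) (z : RatG G) :
    P z := Quotient.ind h z

instance (G : Type u) [Group G] : Mul (RatG G) :=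
  ⟨Quotient.map₂ Term.mul (fun _ _ h _ _ h' => Rel.mul h h')⟩
instance (G : Type u) [Group G] : One (RatG G) := ⟨RatG.mk Term.one⟩
instance (G : Type u) [Group G] : Inv (RatG G) :=
  ⟨Quotient.map Term.inv (fun _ _ h => Rel.inv h)⟩

theorem RatG.mk_mul {G : Type u} [Group G] (x y : Term G) :
    RatG.mk (x.mul y) = RatG.mk x * RatG.mk y := rfl
theorem RatG.mk_inv {G : Type u} [Group G] (x : Term G) :
    RatG.mk x.inv = (RatG.mk x)⁻¹ := rfl
theorem RatG.mk_one {G : Type u} [Group G] : RatG.mk (Term.one : Term G) = 1 := rfl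
theorem RatG.sound {G : Type u} [Group G] {x y : Term G} (h : Rel x y) :
    RatG.mk x = RatG.mk y := Quotient.sound h

instance (G : Type u) [Group G] : Group (RatG G) :=
  Group.ofLeftAxioms
    (fun a b c => RatG.ind (P := fun a => a * b * c = a * (b * c)) (fun x =>
      RatG.ind (P := fun b => RatG.mk x * b * c = RatG.mk x * (b * c)) (fun y =>
      RatG.ind (P := fun c => RatG.mk x * RatG.mk y * c = RatG.mk x * (RatG.mk y * c))
        (fun z => RatG.sound (Rel.assoc x y z)) c) b) a)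
    (fun a => RatG.ind (P := fun a => 1 * a = a) (fun x => RatG.sound (Rel.one_mul x)) a)
    (fun a => RatG.ind (P := fun a => a⁻¹ * a = 1) (fun x => RatG.sound (Rel.inv_mul x)) a)

theorem mk_pow {G : Type u} [Group G] (x : Term G) (n : ℕ) :
    RatG.mk (x.pow n) = (RatG.mk x) ^ n := by
  induction n with
  | zero => rw [pow_zero]; rfl
  | succ n ih => rw [pow_succ, ← ih]; rfl

/-- the root operations on the rationalization -/
def RatG.root {G : Type u} [Group G] (p : ℕ) : RatG G → RatG G :=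
  Quotient.map (Term.root p) (fun _ _ h => Rel.root p h)

theorem isLocal_RatG (G : Type u) [Group G] : IsLocal (RatG G) := by
  intro p hp
  refine Function.bijective_iff_has_inverse.2 ⟨RatG.root p, ?_, ?_⟩
  · intro z
    induction z using RatG.ind with
    | h x =>
      show RatG.root p ((RatG.mk x) ^ p) = _
      rw [← mk_pow]
      exact RatG.sound (Rel.pow_root p hp x)
  · intro z
    induction z using RatG.ind with
    | h x =>
      show (RatG.mk (x.root p)) ^ p = _
      rw [← mk_pow]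
      exact RatG.sound (Rel.root_pow p hp x)

/-- the homomorphism to the rationalization -/
def RatG.of (G : Type u) [Group G] : G →* RatG G :=
  MonoidHom.mk' (fun g => RatG.mk (Term.of g))
    (fun g h => RatG.sound (Rel.of_mul g h))

/-- evaluation of terms in a group with chosen roots -/
def Term.eval {G : Type u} {T : Type u} [Group T] (r : ℕ → T → T) (f : G → T) :
    Term G → T
  | .of g => f g
  | .one => 1
  | .mul x y => x.eval r f * y.eval r f
  | .inv x => (x.eval r f)⁻¹
  | .root p x => r p (x.eval r f)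

theorem Term.eval_pow {G : Type u} {T : Type u} [Group T] (r : ℕ → T → T) (f : G → T)
    (x : Term G) (n : ℕ) : (x.pow n).eval r f = (x.eval r f) ^ n := by
  induction n with
  | zero => rw [pow_zero]; rfl
  | succ n ih => rw [pow_succ, ← ih]; rfl

theorem eval_rel {G : Type u} [Group G] {T : Type u} [Group T] (r : ℕ → T → T)
    (h1 : ∀ p : ℕ, p.Prime → ∀ x : T, (r p x) ^ p = x)
    (h2 : ∀ p : ℕ, p.Prime → ∀ x : T, r p (x ^ p) = x)
    (h3 : ∀ p : ℕ, ¬ p.Prime → ∀ x : T, r p x = 1)
    (f : G →* T) {x y : Term G} (h : Rel x y) : x.eval r f = y.eval r f := by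
  induction h with
  | refl x => rfl
  | symm _ ih => exact ih.symm
  | trans _ _ ih1 ih2 => exact ih1.trans ih2
  | mul _ _ ih1 ih2 => simp only [Term.eval, ih1, ih2]
  | inv _ ih => simp only [Term.eval, ih]
  | root p _ ih => simp only [Term.eval, ih]
  | assoc x y z => simp only [Term.eval, mul_assoc]
  | one_mul x => simp only [Term.eval, _root_.one_mul]
  | inv_mul x => simp only [Term.eval, inv_mul_cancel]
  | of_mul g h => simp only [Term.eval, map_mul]
  | root_pow p hp x => rw [Term.eval_pow]; exact h1 p hp _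
  | pow_root p hp x => simp only [Term.eval]; rw [Term.eval_pow]; exact h2 p hp _
  | root_junk p hp x => exact h3 p hp _

theorem exists_lift {G : Type u} [Group G] {T : Type u} [Group T] (hT : IsLocal T) (f : G →* T) :
    ∃ g : RatG G →* T, g.comp (RatG.of G) = f := by
  classical
  let r : ℕ → T → T := fun p x => if hp : p.Prime then
    (Equiv.ofBijective _ (hT p hp)).symm x else 1
  have h1 : ∀ p : ℕ, p.Prime → ∀ x : T, (r p x) ^ p = x := by
    intro p hp x
    simp only [r, dif_pos hp]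
    exact (Equiv.ofBijective _ (hT p hp)).apply_symm_apply x
  have h2 : ∀ p : ℕ, p.Prime → ∀ x : T, r p (x ^ p) = x := by
    intro p hp x
    simp only [r, dif_pos hp]
    exact (Equiv.ofBijective _ (hT p hp)).symm_apply_apply x
  have h3 : ∀ p : ℕ, ¬ p.Prime → ∀ x : T, r p x = 1 := by
    intro p hp x
    simp only [r, dif_neg hp]
  refine ⟨MonoidHom.mk' (Quotient.lift (Term.eval r f) (fun _ _ h => eval_rel r h1 h2 h3 f h)) ?_,
    ?_⟩
  · intro a b
    induction a using RatG.ind with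
    | h x =>
      induction b using RatG.ind with
      | h y => rfl
  · ext g
    rfl

theorem hom_ext_RatG {G : Type u} [Group G] {T : Type u} [Group T] (hT : IsLocal T)
    {g g' : RatG G →* T} (h : g.comp (RatG.of G) = g'.comp (RatG.of G)) : g = g' := by
  have key : ∀ x : Term G, g (RatG.mk x) = g' (RatG.mk x) := by
    intro x
    induction x with
    | of a => exact DFunLike.congr_fun h a
    | one => rw [RatG.mk_one, map_one, map_one]
    | mul x y hx hy => rw [RatG.mk_mul, map_mul, map_mul, hx, hy]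
    | inv x hx => rw [RatG.mk_inv, map_inv, map_inv, hx]
    | root p x hx =>
      by_cases hp : p.Prime
      · apply (hT p hp).1
        show (g (RatG.mk (x.root p))) ^ p = (g' (RatG.mk (x.root p))) ^ p
        rw [← map_pow, ← map_pow, ← mk_pow, RatG.sound (Rel.root_pow p hp x), hx]
      · rw [RatG.sound (Rel.root_junk p hp x), RatG.mk_one, map_one, map_one]
  refine MonoidHom.ext fun z => ?_
  induction z using RatG.ind with
  | h x => exact key x

/-- the induced homomorphism of rationalizations -/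
noncomputable def RatG.map {G H : Type u} [Group G] [Group H] (f : G →* H) : RatG G →* RatG H :=
  (exists_lift (isLocal_RatG H) ((RatG.of H).comp f)).choose

theorem RatG.map_of {G H : Type u} [Group G] [Group H] (f : G →* H) :
    (RatG.map f).comp (RatG.of G) = (RatG.of H).comp f :=
  (exists_lift (isLocal_RatG H) ((RatG.of H).comp f)).choose_spec

/-- The rationalization functor. -/
noncomputable def ratFunctor : GrpCat.{u} ⥤ GrpCat.{u} where
  obj G := GrpCat.of (RatG G)
  map f := GrpCat.ofHom (RatG.map f.hom)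
  map_id G := by
    apply GrpCat.hom_ext
    exact hom_ext_RatG (isLocal_RatG G) (RatG.map_of (MonoidHom.id G))
  map_comp {G H K} f g := by
    apply GrpCat.hom_ext
    apply hom_ext_RatG (isLocal_RatG K)
    refine MonoidHom.ext fun x => ?_
    have a := DFunLike.congr_fun (RatG.map_of (g.hom.comp f.hom)) x
    have b := DFunLike.congr_fun (RatG.map_of f.hom) x
    have c := DFunLike.congr_fun (RatG.map_of g.hom) (f.hom x)
    exact a.trans (c.symm.trans (congrArg (RatG.map g.hom) b.symm))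

/-- There is a rationalization functor. -/
theorem exists_rationalization : Nonempty Rationalization.{u} :=
  ⟨{ L := ratFunctor
     η :=
      { app := fun G => GrpCat.ofHom (RatG.of G)
        naturality := by
          intro G H f
          apply GrpCat.hom_ext
          exact (RatG.map_of f.hom).symm }
     isLocal := fun G => isLocal_RatG G
     universal := by
      intro G T hT f
      obtain ⟨g, hg⟩ := exists_lift hT f.hom
      refine ⟨GrpCat.ofHom g, ?_, ?_⟩
      · apply GrpCat.hom_ext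
        exact hg
      · intro g' hg'
        apply GrpCat.hom_ext
        apply hom_ext_RatG hT
        show g'.hom.comp (RatG.of G) = g.comp (RatG.of G)
        rw [hg]
        exact congrArg GrpCat.Hom.hom hg' }⟩

end Existence

/-! ### The groups `K ⋊ ℚ` -/

/-- The group `K ⋊_χ ℚ` for a homomorphism `χ` from `ℚ` to the units of a field `K`. -/
@[ext] structure Ax (K : Type) (χ : ℚ → K) : Type u where
  x : K
  r : ℚ

/-- `χ` is a homomorphism to the multiplicative group, and `χ r ≠ 1` for `r ≠ 0`. -/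
structure Good {K : Type} [Field K] (χ : ℚ → K) : Prop where
  zero : χ 0 = 1
  add : ∀ r s, χ (r + s) = χ r * χ s
  ne_one : ∀ r, r ≠ 0 → χ r ≠ 1

section Ax

variable {K : Type} [Field K] {χ : ℚ → K} [hχ : Fact (Good χ)]

instance : Mul (Ax.{u} K χ) := ⟨fun a b => ⟨a.x + χ a.r * b.x, a.r + b.r⟩⟩
instance : One (Ax.{u} K χ) := ⟨⟨0, 0⟩⟩
instance : Inv (Ax.{u} K χ) := ⟨fun a => ⟨- (χ (-a.r) * a.x), -a.r⟩⟩

omit hχ in
theorem Ax.mul_def (a b : Ax.{u} K χ) : a * b = ⟨a.x + χ a.r * b.x, a.r + b.r⟩ := rfl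
omit hχ in
theorem Ax.one_def : (1 : Ax.{u} K χ) = ⟨0, 0⟩ := rfl
omit hχ in
theorem Ax.inv_def (a : Ax.{u} K χ) : a⁻¹ = ⟨- (χ (-a.r) * a.x), -a.r⟩ := rfl

instance : Group (Ax.{u} K χ) :=
  Group.ofLeftAxioms
    (by
      intro a b c
      simp only [Ax.mul_def, hχ.out.add]
      ext
      · simp only; ring
      · simp only; ring)
    (by
      intro a
      simp only [Ax.mul_def, Ax.one_def, hχ.out.zero]
      ext <;> simp)
    (by
      intro a
      simp only [Ax.mul_def, Ax.one_def, Ax.inv_def]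
      ext <;> simp)

theorem Ax.pow_r (a : Ax.{u} K χ) (n : ℕ) : (a ^ n).r = n * a.r := by
  induction n with
  | zero => simp [Ax.one_def]
  | succ n ih =>
    rw [pow_succ, Ax.mul_def]
    simp only [ih]
    push_cast
    ring

theorem Ax.pow_x (a : Ax.{u} K χ) (n : ℕ) :
    (a ^ n).x = (∑ k ∈ Finset.range n, χ a.r ^ k) * a.x := by
  induction n with
  | zero => simp [Ax.one_def]
  | succ n ih =>
    rw [pow_succ, Ax.mul_def, Finset.sum_range_succ]
    simp only [ih, Ax.pow_r]
    have h : ∀ m : ℕ, χ (m * a.r) = χ a.r ^ m := by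
      intro m
      induction m with
      | zero => simp [hχ.out.zero]
      | succ m ih =>
        rw [pow_succ, ← ih, ← hχ.out.add]
        congr 1
        push_cast
        ring
    rw [h]
    ring

theorem Good.sum_ne_zero [CharZero K] (r : ℚ) (n : ℕ) (hn : n ≠ 0) :
    (∑ k ∈ Finset.range n, χ r ^ k) ≠ 0 := by
  have h : ∀ m : ℕ, χ (m * r) = χ r ^ m := by
    intro m
    induction m with
    | zero => simp [hχ.out.zero]
    | succ m ih =>
      rw [pow_succ, ← ih, ← hχ.out.add]
      congr 1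
      push_cast
      ring
  by_cases hr : r = 0
  · subst hr
    rw [hχ.out.zero]
    simp [hn]
  · intro h0
    have h1 := geom_sum_mul (χ r) n
    rw [h0, zero_mul, ← h] at h1
    have h2 : (n : ℚ) * r ≠ 0 := mul_ne_zero (by exact_mod_cast hn) hr
    exact hχ.out.ne_one _ h2 (sub_eq_zero.1 h1.symm)

theorem isLocal_Ax [CharZero K] : IsLocal (Ax.{u} K χ) := by
  intro p hp
  have hp0 : (p : ℚ) ≠ 0 := by exact_mod_cast hp.ne_zero
  constructor
  · intro a b hab
    have h1 := congrArg Ax.r hab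
    have h2 := congrArg Ax.x hab
    simp only [Ax.pow_r] at h1
    simp only [Ax.pow_x] at h2
    have h3 : a.r = b.r := mul_left_cancel₀ hp0 h1
    rw [h3] at h2
    exact Ax.ext (mul_left_cancel₀ (Good.sum_ne_zero b.r p hp.ne_zero) h2) h3
  · intro b
    refine ⟨⟨(∑ k ∈ Finset.range p, χ (b.r / p) ^ k)⁻¹ * b.x, b.r / p⟩, ?_⟩
    apply Ax.ext
    · rw [Ax.pow_x]
      exact mul_inv_cancel_left₀ (Good.sum_ne_zero (b.r / p) p hp.ne_zero) b.x
    · rw [Ax.pow_r]
      exact mul_div_cancel₀ b.r hp0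

end Ax

/-! ### Local groups and extensions -/

theorem isLocal_add (K : Type) [Field K] [CharZero K] :
    IsLocal (ULift.{u} (Multiplicative K)) := by
  intro p hp
  have hp0 : (p : K) ≠ 0 := by exact_mod_cast hp.ne_zero
  constructor
  · rintro ⟨a⟩ ⟨b⟩ hab
    have h1 : Multiplicative.toAdd (a ^ p) = Multiplicative.toAdd (b ^ p) :=
      congrArg (fun z : ULift.{u} (Multiplicative K) => Multiplicative.toAdd z.down) hab
    rw [toAdd_pow, toAdd_pow, nsmul_eq_mul, nsmul_eq_mul] at h1
    have h2 := mul_left_cancel₀ hp0 h1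
    exact congrArg ULift.up (Multiplicative.toAdd.injective h2)
  · rintro ⟨b⟩
    refine ⟨⟨Multiplicative.ofAdd (Multiplicative.toAdd b / p)⟩, ?_⟩
    have h1 : (Multiplicative.ofAdd (Multiplicative.toAdd b / (p : K))) ^ p = b := by
      apply Multiplicative.toAdd.injective
      rw [toAdd_pow, toAdd_ofAdd, nsmul_eq_mul]
      exact mul_div_cancel₀ _ hp0
    exact congrArg ULift.up h1

theorem eta_bijective (F : Rationalization.{u}) (X : GrpCat.{u}) (hX : IsLocal X) :
    Function.Bijective (F.η.app X).hom := by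
  obtain ⟨g, hg, -⟩ := F.universal X X hX (𝟙 X)
  have h2 : g ≫ F.η.app X = 𝟙 _ := by
    obtain ⟨k, hk, huniq⟩ := F.universal X (F.L.obj X) (F.isLocal X) (F.η.app X)
    have h3 : F.η.app X ≫ (g ≫ F.η.app X) = F.η.app X := by
      rw [← Category.assoc, hg]
      exact Category.id_comp _
    have h4 : F.η.app X ≫ 𝟙 _ = F.η.app X := Category.comp_id _
    exact (huniq _ h3).trans (huniq _ h4).symm
  refine Function.bijective_iff_has_inverse.2 ⟨g.hom, ?_, ?_⟩
  · intro x
    exact DFunLike.congr_fun (congrArg GrpCat.Hom.hom hg) x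
  · intro x
    exact DFunLike.congr_fun (congrArg GrpCat.Hom.hom h2) x

theorem eta_naturality (F : Rationalization.{u}) {X Y : GrpCat.{u}} (f : X ⟶ Y) (x : X) :
    (F.η.app Y).hom (f.hom x) = (F.L.map f).hom ((F.η.app X).hom x) :=
  DFunLike.congr_fun (congrArg GrpCat.Hom.hom (F.η.naturality f)) x

theorem isFlatExtension_of_isLocal (F : Rationalization.{u}) {N E G : GrpCat.{u}}
    (hN : IsLocal N) (hE : IsLocal E) (hG : IsLocal G) {i : N ⟶ E} {p : E ⟶ G}
    (h : IsExtension i p) : IsFlatExtension F i p := by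
  have bN := eta_bijective F N hN
  have bE := eta_bijective F E hE
  have bG := eta_bijective F G hG
  refine ⟨h, ?_, ?_, ?_⟩
  · intro a b hab
    obtain ⟨a, rfl⟩ := bN.2 a
    obtain ⟨b, rfl⟩ := bN.2 b
    rw [← eta_naturality, ← eta_naturality] at hab
    rw [h.1 (bE.1 hab)]
  · intro y
    obtain ⟨y, rfl⟩ := bG.2 y
    obtain ⟨e, rfl⟩ := h.2.1 y
    exact ⟨_, (eta_naturality F p e).symm⟩
  · ext y
    obtain ⟨e, rfl⟩ := bE.2 y
    constructor
    · rintro ⟨n, hn⟩
      obtain ⟨n, rfl⟩ := bN.2 n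
      rw [← eta_naturality] at hn
      rw [MonoidHom.mem_ker, ← hn, ← eta_naturality, h.comp_eq_one, map_one]
    · intro hy
      rw [MonoidHom.mem_ker, ← eta_naturality] at hy
      have h1 : p.hom e = 1 := bG.1 (hy.trans (map_one _).symm)
      have h2 : e ∈ i.hom.range := by
        rw [h.2.2]
        exact h1
      obtain ⟨n, rfl⟩ := h2
      exact ⟨_, (eta_naturality F i n).symm⟩

/-! ### The example -/

/-- `r ↦ 2 ^ r` -/
noncomputable def chi1 (r : ℚ) : ℝ := Real.exp (r * Real.log 2)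

/-- `r ↦ 2 ^ r exp (2 π i r)` -/
noncomputable def chi2 (r : ℚ) : ℂ :=
  Complex.exp ((r : ℂ) * ((Real.log 2 : ℝ) + 2 * Real.pi * Complex.I))

theorem log_two_ne_zero : Real.log 2 ≠ 0 := (Real.log_pos (by norm_num)).ne'

instance good_chi1 : Fact (Good chi1) := ⟨{
  zero := by simp [chi1]
  add := by
    intro r s
    rw [chi1, chi1, chi1, ← Real.exp_add]
    congr 1
    push_cast
    ring
  ne_one := by
    intro r hr h
    rw [chi1, Real.exp_eq_one_iff] at h
    exact mul_ne_zero (by exact_mod_cast hr) log_two_ne_zero h }⟩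

theorem norm_chi2 (r : ℚ) : ‖chi2 r‖ = chi1 r := by
  rw [chi2, Complex.norm_exp, chi1]
  congr 1
  have h : ((r : ℂ) * ((Real.log 2 : ℝ) + 2 * Real.pi * Complex.I)) =
      ((r * Real.log 2 : ℝ) : ℂ) + ((r * (2 * Real.pi) : ℝ) : ℂ) * Complex.I := by
    push_cast
    ring
  rw [h, Complex.add_re, Complex.ofReal_re, Complex.re_ofReal_mul, Complex.I_re, mul_zero,
    add_zero]

instance good_chi2 : Fact (Good chi2) := ⟨{
  zero := by simp [chi2]
  add := by
    intro r s
    rw [chi2, chi2, chi2, ← Complex.exp_add]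
    congr 1
    push_cast
    ring
  ne_one := by
    intro r hr h
    have h1 := norm_chi2 r
    rw [h, norm_one] at h1
    exact good_chi1.out.ne_one r hr h1.symm }⟩

theorem chi2_int (n : ℤ) : chi2 n = chi1 n := by
  rw [chi2, chi1, Complex.ofReal_exp]
  have h : (((n : ℚ) : ℂ) * ((Real.log 2 : ℝ) + 2 * Real.pi * Complex.I)) =
      ((((n : ℚ) : ℝ) * Real.log 2 : ℝ) : ℂ) + (n : ℂ) * (2 * Real.pi * Complex.I) := by
    push_cast
    ring
  rw [h, Complex.exp_add, Complex.exp_int_mul_two_pi_mul_I, mul_one]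

theorem chi2_half : chi2 (1 / 2) = - (chi1 (1 / 2) : ℂ) := by
  rw [chi2, chi1, Complex.ofReal_exp]
  have h : (((1 / 2 : ℚ) : ℂ) * ((Real.log 2 : ℝ) + 2 * Real.pi * Complex.I)) =
      ((((1 / 2 : ℚ) : ℝ) * Real.log 2 : ℝ) : ℂ) + Real.pi * Complex.I := by
    push_cast
    ring
  rw [h, Complex.exp_add, Complex.exp_pi_mul_I, mul_neg_one]

/-- `ℝ → ℝ ⋊ ℚ` -/
noncomputable def exI : GrpCat.of (ULift.{u} (Multiplicative ℝ)) ⟶ GrpCat.of (Ax.{u} ℝ chi1) :=
  GrpCat.ofHom (MonoidHom.mk' (fun a => ⟨Multiplicative.toAdd a.down, 0⟩) (by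
    rintro ⟨a⟩ ⟨b⟩
    rw [Ax.mul_def]
    apply Ax.ext
    · show Multiplicative.toAdd (a * b) = Multiplicative.toAdd a + chi1 0 * Multiplicative.toAdd b
      rw [good_chi1.out.zero, one_mul, toAdd_mul]
    · show (0 : ℚ) = 0 + 0
      rw [add_zero]))

/-- `ℝ ⋊ ℚ → ℚ` -/
noncomputable def exP : GrpCat.of (Ax.{u} ℝ chi1) ⟶ GrpCat.of (ULift.{u} (Multiplicative ℚ)) :=
  GrpCat.ofHom (MonoidHom.mk' (fun a => ⟨Multiplicative.ofAdd a.r⟩) (by
    rintro a b
    rfl))

/-- `ℤ → ℚ` -/
noncomputable def exA : GrpCat.of (ULift.{u} (Multiplicative ℤ)) ⟶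
    GrpCat.of (ULift.{u} (Multiplicative ℚ)) :=
  GrpCat.ofHom (MonoidHom.mk' (fun a => ⟨Multiplicative.ofAdd ((Multiplicative.toAdd a.down : ℤ) : ℚ)⟩)
    (by
      rintro ⟨a⟩ ⟨b⟩
      show (⟨Multiplicative.ofAdd ((Multiplicative.toAdd (a * b) : ℤ) : ℚ)⟩ : ULift.{u} _) =
        ⟨Multiplicative.ofAdd ((Multiplicative.toAdd a : ℤ) : ℚ) *
          Multiplicative.ofAdd ((Multiplicative.toAdd b : ℤ) : ℚ)⟩
      rw [toAdd_mul, ← ofAdd_add, Int.cast_add]))

theorem isExtension_ex : IsExtension exI.{u} exP.{u} := by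
  refine ⟨?_, ?_, ?_⟩
  · rintro ⟨a⟩ ⟨b⟩ hab
    have h1 : Multiplicative.toAdd a = Multiplicative.toAdd b :=
      congrArg (fun z : Ax.{u} ℝ chi1 => z.x) hab
    exact congrArg ULift.up (Multiplicative.toAdd.injective h1)
  · rintro ⟨a⟩
    exact ⟨(⟨0, Multiplicative.toAdd a⟩ : Ax.{u} ℝ chi1), rfl⟩
  · ext z
    constructor
    · rintro ⟨n, rfl⟩
      rfl
    · intro hz
      have h1 : (⟨Multiplicative.ofAdd z.r⟩ : ULift.{u} (Multiplicative ℚ)) = 1 := hz
      have h2 : z.r = 0 := by
        have h3 := congrArg (fun y : ULift.{u} (Multiplicative ℚ) => Multiplicative.toAdd y.down) h1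
        exact h3
      exact ⟨⟨Multiplicative.ofAdd z.x⟩, Ax.ext rfl h2.symm⟩

theorem isFlatExtension_ex (F : Rationalization.{u}) : IsFlatExtension F exI.{u} exP.{u} :=
  isFlatExtension_of_isLocal F (isLocal_add ℝ) isLocal_Ax (isLocal_add ℚ) isExtension_ex

/-- the pulled-back group `ℝ ⋊ ℤ` -/
abbrev PB : Type u := pullback exP.{u} exA.{u}

/-- `ℝ ⋊ ℤ → ℝ ⋊ ℚ` -/
noncomputable def toE : PB.{u} →* Ax.{u} ℝ chi1 :=
  (MonoidHom.fst _ _).comp (pullback exP.{u} exA.{u}).subtype

theorem PB_int (z : PB.{u}) : ∃ n : ℤ, (toE z).r = n := by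
  obtain ⟨⟨e, ⟨n⟩⟩, h⟩ := z
  have h1 : (⟨Multiplicative.ofAdd e.r⟩ : ULift.{u} (Multiplicative ℚ)) =
    ⟨Multiplicative.ofAdd ((Multiplicative.toAdd n : ℤ) : ℚ)⟩ := h
  exact ⟨Multiplicative.toAdd n,
    congrArg (fun y : ULift.{u} (Multiplicative ℚ) => Multiplicative.toAdd y.down) h1⟩

/-- `ℝ ⋊ ℤ → ℂ ⋊ ℚ` -/
noncomputable def toT : PB.{u} →* Ax.{u} ℂ chi2 :=
  MonoidHom.mk' (fun z => ⟨((toE z).x : ℂ), (toE z).r⟩) (by
    intro a b
    rw [map_mul, Ax.mul_def, Ax.mul_def]
    apply Ax.ext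
    · show (((toE a).x + chi1 (toE a).r * (toE b).x : ℝ) : ℂ) =
        ((toE a).x : ℂ) + chi2 (toE a).r * ((toE b).x : ℂ)
      obtain ⟨n, hn⟩ := PB_int a
      rw [hn, chi2_int]
      push_cast
      ring
    · rfl)

theorem conj_x {K : Type} [Field K] {χ : ℚ → K} [Fact (Good χ)] (r : ℚ) (x : K) :
    ((⟨0, r⟩ : Ax.{u} K χ) * ⟨x, 0⟩ * (⟨0, r⟩ : Ax.{u} K χ)⁻¹).x = χ r * x := by
  simp [Ax.mul_def, Ax.inv_def]

theorem not_conditionallyFlat (F : Rationalization.{u}) : ¬ ConditionallyFlat F := by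
  intro hF
  have h := (hF _ _ _ exI.{u} exP.{u} (isFlatExtension_ex F) _ exA.{u}).2
  set P := GrpCat.of (pullback exP.{u} exA.{u}) with hP
  set i := pullbackIncl exI.{u} exP.{u} exA.{u} (isFlatExtension_ex F).1.comp_eq_one with hi
  -- the generator
  let t : P := ⟨((⟨0, 1⟩ : Ax.{u} ℝ chi1), ⟨Multiplicative.ofAdd (1 : ℤ)⟩), by
    show (⟨Multiplicative.ofAdd (1 : ℚ)⟩ : ULift.{u} (Multiplicative ℚ)) =
      ⟨Multiplicative.ofAdd (((1 : ℤ) : ℚ))⟩
    rw [Int.cast_one]⟩
  obtain ⟨s, hs⟩ := (F.isLocal P 2 Nat.prime_two).2 ((F.η.app P).hom t)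
  have hs : s ^ 2 = (F.η.app P).hom t := hs
  -- the two maps
  obtain ⟨g1, hg1, -⟩ := F.universal P (GrpCat.of (Ax.{u} ℝ chi1)) isLocal_Ax
    (GrpCat.ofHom toE.{u})
  obtain ⟨g2, hg2, -⟩ := F.universal P (GrpCat.of (Ax.{u} ℂ chi2)) isLocal_Ax
    (GrpCat.ofHom toT.{u})
  have e1 : ∀ z : P, g1.hom ((F.η.app P).hom z) = toE z :=
    fun z => DFunLike.congr_fun (congrArg GrpCat.Hom.hom hg1) z
  have e2 : ∀ z : P, g2.hom ((F.η.app P).hom z) = toT z :=
    fun z => DFunLike.congr_fun (congrArg GrpCat.Hom.hom hg2) z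
  have s1 : g1.hom s = (⟨0, 1 / 2⟩ : Ax.{u} ℝ chi1) := by
    apply (isLocal_Ax.{u} (χ := chi1) 2 Nat.prime_two).1
    show (g1.hom s) ^ 2 = (⟨0, 1 / 2⟩ : Ax.{u} ℝ chi1) ^ 2
    rw [← map_pow, hs, e1]
    apply Ax.ext
    · rw [Ax.pow_x]
      show (0 : ℝ) = _
      simp
    · rw [Ax.pow_r]
      show (1 : ℚ) = _
      norm_num
  have s2 : g2.hom s = (⟨0, 1 / 2⟩ : Ax.{u} ℂ chi2) := by
    apply (isLocal_Ax.{u} (χ := chi2) 2 Nat.prime_two).1
    show (g2.hom s) ^ 2 = (⟨0, 1 / 2⟩ : Ax.{u} ℂ chi2) ^ 2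
    rw [← map_pow, hs, e2]
    apply Ax.ext
    · rw [Ax.pow_x]
      show ((0 : ℝ) : ℂ) = _
      simp
    · rw [Ax.pow_r]
      show (1 : ℚ) = _
      norm_num
  -- the image of `ℝ` is normal
  have hnorm : ∀ x : ℝ, ∃ y : ℝ,
      s * (F.η.app P).hom (i.hom ⟨Multiplicative.ofAdd x⟩) * s⁻¹ =
        (F.η.app P).hom (i.hom ⟨Multiplicative.ofAdd y⟩) := by
    intro x
    have h1 : s * (F.η.app P).hom (i.hom ⟨Multiplicative.ofAdd x⟩) * s⁻¹ ∈
        (F.L.map i).hom.range := by
      rw [h.2.2]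
      apply (MonoidHom.normal_ker _).conj_mem
      rw [← h.2.2]
      exact ⟨_, (eta_naturality F i _).symm⟩
    obtain ⟨z, hz⟩ := h1
    obtain ⟨⟨y⟩, rfl⟩ := (eta_bijective F _ (isLocal_add ℝ)).2 z
    rw [← eta_naturality] at hz
    exact ⟨Multiplicative.toAdd y, hz.symm⟩
  obtain ⟨y, hy⟩ := hnorm 1
  have y1 : chi1 (1 / 2) * 1 = y := by
    have h1 := congrArg g1.hom hy
    rw [map_mul, map_mul, map_inv, e1, e1, s1] at h1
    have h2 := congrArg Ax.x h1
    have h3 : toE (i.hom ⟨Multiplicative.ofAdd (1 : ℝ)⟩) = (⟨1, 0⟩ : Ax.{u} ℝ chi1) := rfl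
    rw [h3, conj_x] at h2
    exact h2
  have y2 : chi2 (1 / 2) * 1 = (y : ℂ) := by
    have h1 := congrArg g2.hom hy
    rw [map_mul, map_mul, map_inv, e2, e2, s2] at h1
    have h2 := congrArg Ax.x h1
    have h3 : toT (i.hom ⟨Multiplicative.ofAdd (1 : ℝ)⟩) = (⟨1, 0⟩ : Ax.{u} ℂ chi2) := by
      apply Ax.ext
      · show (((1 : ℝ)) : ℂ) = 1
        simp
      · rfl
    rw [h3, conj_x] at h2
    exact h2
  rw [chi2_half, ← y1, mul_one, mul_one] at y2
  have h4 : - chi1 (1 / 2) = chi1 (1 / 2) := by exact_mod_cast y2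
  have h5 : 0 < chi1 (1 / 2) := Real.exp_pos _
  linarith

/-- **Rationalization exists and it is not conditionally flat.** -/
theorem result : Nonempty Rationalization.{u} ∧
    ∀ F : Rationalization.{u}, ¬ ConditionallyFlat F :=
  ⟨exists_rationalization, not_conditionallyFlat⟩

end Pool.Agent.Results.MP_a437dc_al.NotConditionallyFlat
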